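import Pool.Agent.Helper89.GW.Stmts

set_option autoImplicit false

/-! SURG: Lagrangian surgery at a transverse double point. -/

open scoped ContDiff Topology
open Set Filter

namespace GW

/-- squared Euclidean norm -/
def surg_n (z : E) : ℝ := z 0 ^ 2 + z 1 ^ 2 + z 2 ^ 2 + z 3 ^ 2

lemma surg_coord (i : Fin 4) (q : E) : HasFDerivAt (fun q : E => q i)
    (ContinuousLinearMap.proj (R := ℝ) (φ := fun _ : Fin 4 => ℝ) i) q :=
  ContinuousLinearMap.hasFDerivAt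
    (ContinuousLinearMap.proj (R := ℝ) (φ := fun _ : Fin 4 => ℝ) i)

lemma surg_pr_contDiff : ContDiff ℝ ∞ pr := by
  unfold pr
  fun_prop

lemma surg_dX_contDiff {ψ : ℝ × ℝ → ℝ} (h : ContDiff ℝ ∞ ψ) : ContDiff ℝ ∞ (dX ψ) := by
  unfold dX
  exact (h.fderiv_right (by simp)).clm_apply contDiff_const

lemma surg_dT_contDiff {ψ : ℝ × ℝ → ℝ} (h : ContDiff ℝ ∞ ψ) : ContDiff ℝ ∞ (dT ψ) := by
  unfold dT
  exact (h.fderiv_right (by simp)).clm_apply contDiff_const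

/-- momentum coordinates -/
noncomputable def surg_P1 (ψ : ℝ × ℝ → ℝ) (q : E) : ℝ := q 1 - dX ψ (pr q)
noncomputable def surg_P2 (ψ : ℝ × ℝ → ℝ) (q : E) : ℝ := q 3 - dT ψ (pr q)

/-- symplectic coordinates -/
noncomputable def surg_Th (ψ : ℝ × ℝ → ℝ) (c : ℝ × ℝ) (m₁ m₂ : ℝ) (q : E) : E :=
  ![q 0 - c.1 - surg_P1 ψ q / m₁, surg_P1 ψ q, q 2 - c.2 - surg_P2 ψ q / m₂, surg_P2 ψ q]

/-- inverse -/
noncomputable def surg_Xi (ψ : ℝ × ℝ → ℝ) (c : ℝ × ℝ) (m₁ m₂ : ℝ) (z : E) : E :=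
  ![c.1 + z 0 + z 1 / m₁, z 1 + dX ψ (c.1 + z 0 + z 1 / m₁, c.2 + z 2 + z 3 / m₂),
    c.2 + z 2 + z 3 / m₂, z 3 + dT ψ (c.1 + z 0 + z 1 / m₁, c.2 + z 2 + z 3 / m₂)]

section
variable {ψ : ℝ × ℝ → ℝ} (hψ : ContDiff ℝ ∞ ψ) (c : ℝ × ℝ) (m₁ m₂ : ℝ)

include hψ

lemma surg_P1_contDiff : ContDiff ℝ ∞ (surg_P1 ψ) := by
  unfold surg_P1
  exact (contDiff_apply ℝ ℝ (1 : Fin 4)).sub ((surg_dX_contDiff hψ).comp surg_pr_contDiff)

lemma surg_P2_contDiff : ContDiff ℝ ∞ (surg_P2 ψ) := by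
  unfold surg_P2
  exact (contDiff_apply ℝ ℝ (3 : Fin 4)).sub ((surg_dT_contDiff hψ).comp surg_pr_contDiff)

lemma surg_Th_contDiff : ContDiff ℝ ∞ (surg_Th ψ c m₁ m₂) := by
  rw [contDiff_pi]
  have h1 := surg_P1_contDiff hψ
  have h2 := surg_P2_contDiff hψ
  intro i
  fin_cases i
  · change ContDiff ℝ ∞ fun q : E => q 0 - c.1 - surg_P1 ψ q / m₁
    exact ((contDiff_apply ℝ ℝ (0 : Fin 4)).sub contDiff_const).sub (h1.div_const _)
  · exact h1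
  · change ContDiff ℝ ∞ fun q : E => q 2 - c.2 - surg_P2 ψ q / m₂
    exact ((contDiff_apply ℝ ℝ (2 : Fin 4)).sub contDiff_const).sub (h2.div_const _)
  · exact h2

lemma surg_Xi_cont : Continuous (surg_Xi ψ c m₁ m₂) := by
  have h1 := (surg_dX_contDiff hψ).continuous
  have h2 := (surg_dT_contDiff hψ).continuous
  refine continuous_pi fun i => ?_
  fin_cases i
  · change Continuous fun z : E => c.1 + z 0 + z 1 / m₁
    fun_prop
  · change Continuous fun z : E =>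
      z 1 + dX ψ (c.1 + z 0 + z 1 / m₁, c.2 + z 2 + z 3 / m₂)
    fun_prop
  · change Continuous fun z : E => c.2 + z 2 + z 3 / m₂
    fun_prop
  · change Continuous fun z : E =>
      z 3 + dT ψ (c.1 + z 0 + z 1 / m₁, c.2 + z 2 + z 3 / m₂)
    fun_prop

omit hψ in
lemma surg_Xi_Th (q : E) : surg_Xi ψ c m₁ m₂ (surg_Th ψ c m₁ m₂ q) = q := by
  have e0 : (surg_Th ψ c m₁ m₂ q) 0 = q 0 - c.1 - surg_P1 ψ q / m₁ := rfl
  have e1 : (surg_Th ψ c m₁ m₂ q) 1 = surg_P1 ψ q := rfl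
  have e2 : (surg_Th ψ c m₁ m₂ q) 2 = q 2 - c.2 - surg_P2 ψ q / m₂ := rfl
  have e3 : (surg_Th ψ c m₁ m₂ q) 3 = surg_P2 ψ q := rfl
  have f0 : c.1 + (q 0 - c.1 - surg_P1 ψ q / m₁) + surg_P1 ψ q / m₁ = q 0 := by ring
  have f2 : c.2 + (q 2 - c.2 - surg_P2 ψ q / m₂) + surg_P2 ψ q / m₂ = q 2 := by ring
  unfold surg_Xi
  rw [e0, e1, e2, e3, f0, f2]
  funext i
  fin_cases i
  · rfl
  · change surg_P1 ψ q + dX ψ (q 0, q 2) = q 1
    unfold surg_P1 pr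
    ring
  · rfl
  · change surg_P2 ψ q + dT ψ (q 0, q 2) = q 3
    unfold surg_P2 pr
    ring

omit hψ in
lemma surg_Th_Xi (z : E) : surg_Th ψ c m₁ m₂ (surg_Xi ψ c m₁ m₂ z) = z := by
  have hpr : pr (surg_Xi ψ c m₁ m₂ z) = (c.1 + z 0 + z 1 / m₁, c.2 + z 2 + z 3 / m₂) := rfl
  have h1 : surg_P1 ψ (surg_Xi ψ c m₁ m₂ z) = z 1 := by
    unfold surg_P1
    rw [hpr]
    change z 1 + dX ψ _ - dX ψ _ = z 1
    ring
  have h2 : surg_P2 ψ (surg_Xi ψ c m₁ m₂ z) = z 3 := by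
    unfold surg_P2
    rw [hpr]
    change z 3 + dT ψ _ - dT ψ _ = z 3
    ring
  unfold surg_Th
  rw [h1, h2]
  funext i
  fin_cases i
  · change c.1 + z 0 + z 1 / m₁ - c.1 - z 1 / m₁ = z 0
    ring
  · rfl
  · change c.2 + z 2 + z 3 / m₂ - c.2 - z 3 / m₂ = z 2
    ring
  · rfl

lemma surg_sympl (q u v : E) : om (fderiv ℝ (surg_Th ψ c m₁ m₂) q u)
    (fderiv ℝ (surg_Th ψ c m₁ m₂) q v) = om u v := by
  set H := fderiv ℝ (fderiv ℝ ψ) (pr q) with hH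
  have hsym : ∀ a b, H a b = H b a := by
    have h1 : IsSymmSndFDerivAt ℝ ψ (pr q) :=
      hψ.contDiffAt.isSymmSndFDerivAt (by
        rw [minSmoothness_of_isRCLikeNormedField]
        exact WithTop.coe_le_coe.mpr (le_top : (2 : ℕ∞) ≤ ⊤))
    exact fun a b => h1 a b
  have hd : Differentiable ℝ (fderiv ℝ ψ) :=
    (hψ.fderiv_right (m := ∞) (by simp)).differentiable (by simp)
  -- derivative of pr
  have hpr : HasFDerivAt pr ((ContinuousLinearMap.proj (R := ℝ) (φ := fun _ : Fin 4 => ℝ) 0).prod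
      (ContinuousLinearMap.proj (R := ℝ) (φ := fun _ : Fin 4 => ℝ) 2)) q :=
    (surg_coord 0 q).prodMk (surg_coord 2 q)
  have hX : ∀ u, fderiv ℝ (fun q => dX ψ (pr q)) q u = H (u 0, u 2) (1, 0) := by
    intro u
    have h1 : HasFDerivAt (fun q => fderiv ℝ ψ (pr q)) (H.comp _) q :=
      (hd (pr q)).hasFDerivAt.comp q hpr
    have h2 : HasFDerivAt (fun q => dX ψ (pr q)) _ q :=
      h1.clm_apply (hasFDerivAt_const ((1 : ℝ), (0 : ℝ)) q)
    rw [h2.fderiv]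
    simp
  have hT : ∀ u, fderiv ℝ (fun q => dT ψ (pr q)) q u = H (u 0, u 2) (0, 1) := by
    intro u
    have h1 : HasFDerivAt (fun q => fderiv ℝ ψ (pr q)) (H.comp _) q :=
      (hd (pr q)).hasFDerivAt.comp q hpr
    have h2 : HasFDerivAt (fun q => dT ψ (pr q)) _ q :=
      h1.clm_apply (hasFDerivAt_const ((0 : ℝ), (1 : ℝ)) q)
    rw [h2.fderiv]
    simp
  have hP1 : ∀ u, fderiv ℝ (surg_P1 ψ) q u = u 1 - H (u 0, u 2) (1, 0) := by
    intro u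
    rw [← hX]
    have h1 : HasFDerivAt (fun q : E => q 1)
        (ContinuousLinearMap.proj (R := ℝ) (φ := fun _ : Fin 4 => ℝ) 1) q :=
      surg_coord 1 q
    have h2 : DifferentiableAt ℝ (fun q => dX ψ (pr q)) q :=
      (((surg_dX_contDiff hψ).comp surg_pr_contDiff).differentiable (by simp)) q
    have h3 : HasFDerivAt (surg_P1 ψ) _ q := h1.sub h2.hasFDerivAt
    rw [h3.fderiv]
    rfl
  have hP2 : ∀ u, fderiv ℝ (surg_P2 ψ) q u = u 3 - H (u 0, u 2) (0, 1) := by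
    intro u
    rw [← hT]
    have h1 : HasFDerivAt (fun q : E => q 3)
        (ContinuousLinearMap.proj (R := ℝ) (φ := fun _ : Fin 4 => ℝ) 3) q :=
      surg_coord 3 q
    have h2 : DifferentiableAt ℝ (fun q => dT ψ (pr q)) q :=
      (((surg_dT_contDiff hψ).comp surg_pr_contDiff).differentiable (by simp)) q
    have h3 : HasFDerivAt (surg_P2 ψ) _ q := h1.sub h2.hasFDerivAt
    rw [h3.fderiv]
    rfl
  have d1 : DifferentiableAt ℝ (surg_P1 ψ) q := ((surg_P1_contDiff hψ).differentiable (by simp)) q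
  have d2 : DifferentiableAt ℝ (surg_P2 ψ) q := ((surg_P2_contDiff hψ).differentiable (by simp)) q
  have hcomp : ∀ (i : Fin 4) (u : E), (fderiv ℝ (surg_Th ψ c m₁ m₂) q u) i =
      fderiv ℝ (fun q => surg_Th ψ c m₁ m₂ q i) q u := by
    intro i u
    have hdT : DifferentiableAt ℝ (surg_Th ψ c m₁ m₂) q :=
      ((surg_Th_contDiff hψ c m₁ m₂).differentiable (by simp)) q
    have h1 : HasFDerivAt (fun q => surg_Th ψ c m₁ m₂ q i)
        ((ContinuousLinearMap.proj (R := ℝ) (φ := fun _ : Fin 4 => ℝ) i).comp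
          (fderiv ℝ (surg_Th ψ c m₁ m₂) q)) q :=
      (ContinuousLinearMap.hasFDerivAt
        (ContinuousLinearMap.proj (R := ℝ) (φ := fun _ : Fin 4 => ℝ) i)).comp q hdT.hasFDerivAt
    rw [h1.fderiv]
    rfl
  have c0 : ∀ u, (fderiv ℝ (surg_Th ψ c m₁ m₂) q u) 0 =
      u 0 - (u 1 - H (u 0, u 2) (1, 0)) / m₁ := by
    intro u
    rw [hcomp, ← hP1]
    have h1 : HasFDerivAt (fun q : E => q 0 - c.1)
        (ContinuousLinearMap.proj (R := ℝ) (φ := fun _ : Fin 4 => ℝ) 0) q :=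
      (surg_coord 0 q).sub_const _
    have h2 : HasFDerivAt (fun q => surg_Th ψ c m₁ m₂ q 0) _ q :=
      h1.sub (d1.hasFDerivAt.mul_const m₁⁻¹)
    rw [h2.fderiv]
    simp [div_eq_mul_inv, mul_comm]
  have c1 : ∀ u, (fderiv ℝ (surg_Th ψ c m₁ m₂) q u) 1 = u 1 - H (u 0, u 2) (1, 0) := by
    intro u
    rw [hcomp, ← hP1]
    rfl
  have c2 : ∀ u, (fderiv ℝ (surg_Th ψ c m₁ m₂) q u) 2 =
      u 2 - (u 3 - H (u 0, u 2) (0, 1)) / m₂ := by
    intro u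
    rw [hcomp, ← hP2]
    have h1 : HasFDerivAt (fun q : E => q 2 - c.2)
        (ContinuousLinearMap.proj (R := ℝ) (φ := fun _ : Fin 4 => ℝ) 2) q :=
      (surg_coord 2 q).sub_const _
    have h2 : HasFDerivAt (fun q => surg_Th ψ c m₁ m₂ q 2) _ q :=
      h1.sub (d2.hasFDerivAt.mul_const m₂⁻¹)
    rw [h2.fderiv]
    simp [div_eq_mul_inv, mul_comm]
  have c3 : ∀ u, (fderiv ℝ (surg_Th ψ c m₁ m₂) q u) 3 = u 3 - H (u 0, u 2) (0, 1) := by
    intro u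
    rw [hcomp, ← hP2]
    rfl
  have hlin : ∀ a : ℝ × ℝ, ∀ s t : ℝ, H a (s, t) = s * H a (1, 0) + t * H a (0, 1) := by
    intro a s t
    have : ((s, t) : ℝ × ℝ) = s • ((1 : ℝ), (0 : ℝ)) + t • ((0 : ℝ), (1 : ℝ)) := by simp
    rw [this, map_add, map_smul, map_smul, smul_eq_mul, smul_eq_mul]
  have hs := hsym (u 0, u 2) (v 0, v 2)
  rw [hlin (u 0, u 2) (v 0) (v 2), hlin (v 0, v 2) (u 0) (u 2)] at hs
  unfold om
  rw [c0, c1, c2, c3, c0, c1, c2, c3]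
  linear_combination hs

end

/-- far from the origin the handle is the union of the two planes -/
lemma surg_hd {cc : ℝ → ℝ} {b ρ : ℝ} (hb : 0 < b) (hρ : ρ = b ^ 2 / 2) (h0 : ∀ r, 0 ≤ cc r)
    (h1 : ∀ r, cc r ≤ ρ) (h2 : ∀ r, ρ ≤ |r| → cc r = 0) (z : E) (hz : b ^ 2 ≤ surg_n z) :
    z ∈ Hd cc ↔ (z 1 = 0 ∧ z 3 = 0) ∨ (z 0 = 0 ∧ z 2 = 0) := by
  have hb2 : 0 < b ^ 2 := by positivity
  unfold surg_n at hz
  constructor
  · rintro ⟨e1, e2⟩
    set r := z 0 ^ 2 + z 2 ^ 2 - z 1 ^ 2 - z 3 ^ 2 with hr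
    have hid : (z 0 ^ 2 + z 1 ^ 2 + z 2 ^ 2 + z 3 ^ 2) ^ 2 = r ^ 2 + cc r ^ 2 := by
      rw [← e2, hr]
      linear_combination (4 * (z 0 * z 3 - z 2 * z 1)) * e1
    have hcc : cc r = 0 := by
      by_contra hne
      have h3 : |r| < ρ := by
        by_contra h4
        exact hne (h2 r (not_lt.mp h4))
      have h5 : r ^ 2 < ρ ^ 2 := sq_lt_sq' (by linarith [(abs_lt.mp h3).1]) (abs_lt.mp h3).2
      have h6 : cc r ^ 2 ≤ ρ ^ 2 := pow_le_pow_left₀ (h0 r) (h1 r) 2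
      have h7 : (b ^ 2) ^ 2 ≤ (z 0 ^ 2 + z 1 ^ 2 + z 2 ^ 2 + z 3 ^ 2) ^ 2 :=
        pow_le_pow_left₀ hb2.le hz 2
      rw [hid] at h7
      rw [hρ] at h5 h6
      nlinarith
    rw [hcc] at hid e2
    have hprod : (z 0 ^ 2 + z 2 ^ 2) * (z 1 ^ 2 + z 3 ^ 2) = 0 := by
      have : 4 * ((z 0 ^ 2 + z 2 ^ 2) * (z 1 ^ 2 + z 3 ^ 2)) =
          (z 0 ^ 2 + z 1 ^ 2 + z 2 ^ 2 + z 3 ^ 2) ^ 2 - r ^ 2 := by rw [hr]; ring
      rw [hid] at this
      linarith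
    rcases mul_eq_zero.mp hprod with h | h
    · right
      have h8 : z 0 ^ 2 = 0 := by nlinarith [sq_nonneg (z 0), sq_nonneg (z 2)]
      have h9 : z 2 ^ 2 = 0 := by nlinarith [sq_nonneg (z 0), sq_nonneg (z 2)]
      exact ⟨pow_eq_zero_iff two_ne_zero |>.mp h8, pow_eq_zero_iff two_ne_zero |>.mp h9⟩
    · left
      have h8 : z 1 ^ 2 = 0 := by nlinarith [sq_nonneg (z 1), sq_nonneg (z 3)]
      have h9 : z 3 ^ 2 = 0 := by nlinarith [sq_nonneg (z 1), sq_nonneg (z 3)]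
      exact ⟨pow_eq_zero_iff two_ne_zero |>.mp h8, pow_eq_zero_iff two_ne_zero |>.mp h9⟩
  · rintro (⟨h3, h4⟩ | ⟨h3, h4⟩)
    · refine ⟨by rw [h3, h4]; ring, ?_⟩
      rw [h3, h4] at hz ⊢
      rw [h2]
      · ring
      · rw [abs_of_nonneg (by nlinarith [sq_nonneg (z 0), sq_nonneg (z 2)])]
        nlinarith
    · refine ⟨by rw [h3, h4]; ring, ?_⟩
      rw [h3, h4] at hz ⊢
      rw [h2]
      · ring
      · rw [abs_of_nonpos (by nlinarith [sq_nonneg (z 1), sq_nonneg (z 3)])]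
        nlinarith

lemma surg_cut (ρ : ℝ) (hρ : 0 < ρ) : ∃ cc : ℝ → ℝ, ContDiff ℝ ∞ cc ∧ cc 0 ≠ 0 ∧ (∀ r, 0 ≤ cc r) ∧
    (∀ r, cc r ≤ ρ) ∧ (∀ r, ρ ≤ |r| → cc r = 0) := by
  let f : ContDiffBump (0 : ℝ) := ⟨ρ / 2, ρ, by positivity, by linarith⟩
  refine ⟨fun r => ρ * f r, contDiff_const.mul f.contDiff, ?_, ?_, ?_, ?_⟩
  · have : f 0 = 1 := f.one_of_mem_closedBall (by simp [f]; positivity)
    change ρ * f 0 ≠ 0
    rw [this, mul_one]
    exact hρ.ne'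
  · exact fun r => mul_nonneg hρ.le f.nonneg
  · intro r
    have := f.le_one (x := r)
    nlinarith
  · intro r hr
    have : f r = 0 := by
      apply f.zero_of_le_dist
      rw [Real.dist_eq, sub_zero]
      exact hr
    change ρ * f r = 0
    rw [this, mul_zero]

lemma surg_local {L L' : Set E} {p : E} {V : Set E} (hV : IsOpen V) (hp : p ∈ V)
    (h : ∀ q ∈ V, (q ∈ L ↔ q ∈ L')) (hL : LagAt L p) : LagAt L' p := by
  obtain ⟨W, hW, hpW, G₁, G₂, h1, h2, h3, h4, h5⟩ := hL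
  refine ⟨W ∩ V, hW.inter hV, ⟨hpW, hp⟩, G₁, G₂, h1.mono inter_subset_left,
    h2.mono inter_subset_left, fun q hq => ?_, h4, fun q hq => h5 q hq.1⟩
  rw [← h q hq.2]
  exact h3 q hq.1

theorem st_SURG (hHand : ST_HAND) (hPull : ST_PULL) : ST_SURG := by
  intro L₀ d U hL₀ hd hU hdU
  obtain ⟨ψ, c, m₁, m₂, U', hψ, hm₁, hm₂, hU', hdU', hdd, hLU⟩ := hd
  set Θ := surg_Th ψ c m₁ m₂ with hΘ
  set Ξ := surg_Xi ψ c m₁ m₂ with hΞ
  have hΘc : ContDiff ℝ ∞ Θ := surg_Th_contDiff hψ c m₁ m₂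
  have hΞc : Continuous Ξ := surg_Xi_cont hψ c m₁ m₂
  have hΞΘ : ∀ q, Ξ (Θ q) = q := surg_Xi_Th c m₁ m₂
  have hΘΞ : ∀ z, Θ (Ξ z) = z := surg_Th_Xi c m₁ m₂
  have hΞ0 : Ξ 0 = d := by
    rw [hdd]
    funext i
    fin_cases i
    · change c.1 + 0 + 0 / m₁ = c.1
      ring
    · change 0 + dX ψ (c.1 + 0 + 0 / m₁, c.2 + 0 + 0 / m₂) = dX ψ c
      simp
    · change c.2 + 0 + 0 / m₂ = c.2
      ring
    · change 0 + dT ψ (c.1 + 0 + 0 / m₁, c.2 + 0 + 0 / m₂) = dT ψ c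
      simp
  have hΘd : Θ d = 0 := by rw [← hΞ0, hΘΞ]
  have hnc : Continuous surg_n := by
    unfold surg_n
    fun_prop
  -- choice of b
  have hmem : Ξ ⁻¹' (U ∩ U') ∈ 𝓝 (0 : E) :=
    hΞc.continuousAt.preimage_mem_nhds (by rw [hΞ0]; exact (hU.inter hU').mem_nhds ⟨hdU, hdU'⟩)
  obtain ⟨ε, hε, hball⟩ := Metric.mem_nhds_iff.mp hmem
  set b : ℝ := ε / 4 with hb
  have hb0 : 0 < b := by positivity
  have hsmall : ∀ z : E, surg_n z < 4 * b ^ 2 → Ξ z ∈ U ∩ U' := by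
    intro z hz
    apply hball
    rw [mem_ball_zero_iff, pi_norm_lt_iff hε]
    intro i
    rw [Real.norm_eq_abs]
    have h1 : z i ^ 2 ≤ surg_n z := by
      unfold surg_n
      fin_cases i
      · change z 0 ^ 2 ≤ _
        nlinarith [sq_nonneg (z 1), sq_nonneg (z 2), sq_nonneg (z 3)]
      · change z 1 ^ 2 ≤ _
        nlinarith [sq_nonneg (z 0), sq_nonneg (z 2), sq_nonneg (z 3)]
      · change z 2 ^ 2 ≤ _
        nlinarith [sq_nonneg (z 0), sq_nonneg (z 1), sq_nonneg (z 3)]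
      · change z 3 ^ 2 ≤ _
        nlinarith [sq_nonneg (z 0), sq_nonneg (z 1), sq_nonneg (z 2)]
    have h2 : z i ^ 2 < ε ^ 2 := by
      have : 4 * b ^ 2 < ε ^ 2 := by rw [hb]; nlinarith [sq_pos_of_pos hε]
      linarith
    exact abs_lt_of_sq_lt_sq h2 hε.le
  have hsmall' : ∀ q : E, surg_n (Θ q) < 4 * b ^ 2 → q ∈ U ∩ U' := by
    intro q hq
    have := hsmall (Θ q) hq
    rwa [hΞΘ] at this
  obtain ⟨cc, hcc, hcc0, hccn, hccl, hccz⟩ := surg_cut (b ^ 2 / 2) (by positivity)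
  -- the compact set K
  set K : Set E := {q | surg_n (Θ q) ≤ b ^ 2} with hK
  have hΘcont : Continuous Θ := hΘc.continuous
  have hKc : IsCompact K := by
    have h1 : IsCompact {z : E | surg_n z ≤ b ^ 2} := by
      refine Metric.isCompact_of_isClosed_isBounded
        (isClosed_le hnc continuous_const) ?_
      refine (Metric.isBounded_closedBall (x := (0 : E)) (r := b)).subset ?_
      intro z hz
      rw [mem_closedBall_zero_iff, pi_norm_le_iff_of_nonneg hb0.le]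
      intro i
      rw [Real.norm_eq_abs]
      apply abs_le_of_sq_le_sq _ hb0.le
      refine le_trans ?_ hz
      unfold surg_n
      fin_cases i
      · change z 0 ^ 2 ≤ _
        nlinarith [sq_nonneg (z 1), sq_nonneg (z 2), sq_nonneg (z 3)]
      · change z 1 ^ 2 ≤ _
        nlinarith [sq_nonneg (z 0), sq_nonneg (z 2), sq_nonneg (z 3)]
      · change z 2 ^ 2 ≤ _
        nlinarith [sq_nonneg (z 0), sq_nonneg (z 1), sq_nonneg (z 3)]
      · change z 3 ^ 2 ≤ _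
        nlinarith [sq_nonneg (z 0), sq_nonneg (z 1), sq_nonneg (z 2)]
    have h2 : K = Ξ '' {z : E | surg_n z ≤ b ^ 2} := by
      ext q
      constructor
      · intro hq
        exact ⟨Θ q, hq, hΞΘ q⟩
      · rintro ⟨z, hz, rfl⟩
        change surg_n (Θ (Ξ z)) ≤ b ^ 2
        rw [hΘΞ]
        exact hz
    rw [h2]
    exact h1.image hΞc
  have hKU : K ⊆ U := by
    intro q hq
    refine (hsmall' q ?_).1
    have : surg_n (Θ q) ≤ b ^ 2 := hq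
    nlinarith [sq_pos_of_pos hb0]
  have hn0 : surg_n (Θ d) = 0 := by rw [hΘd]; simp [surg_n]
  -- membership in L₀
  have hL0 : ∀ q ∈ U', (q ∈ L₀ ↔ ((Θ q) 1 = 0 ∧ (Θ q) 3 = 0) ∨ ((Θ q) 0 = 0 ∧ (Θ q) 2 = 0)) := by
    intro q hq
    rw [hLU q hq]
    change _ ↔ (q 1 - dX ψ (pr q) = 0 ∧ q 3 - dT ψ (pr q) = 0) ∨
      (q 0 - c.1 - (q 1 - dX ψ (pr q)) / m₁ = 0 ∧ q 2 - c.2 - (q 3 - dT ψ (pr q)) / m₂ = 0)
    refine or_congr (and_congr sub_eq_zero.symm sub_eq_zero.symm) (and_congr ?_ ?_)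
    · constructor
      · intro h
        rw [h]
        field_simp
        ring
      · intro h
        have h' : (q 1 - dX ψ (pr q)) / m₁ = q 0 - c.1 := by linarith
        rw [div_eq_iff hm₁] at h'
        linarith
    · constructor
      · intro h
        rw [h]
        field_simp
        ring
      · intro h
        have h' : (q 3 - dT ψ (pr q)) / m₂ = q 2 - c.2 := by linarith
        rw [div_eq_iff hm₂] at h'
        linarith
  have hfar : ∀ q ∈ U', b ^ 2 ≤ surg_n (Θ q) → (q ∈ L₀ ↔ Θ q ∈ Hd cc) := by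
    intro q hq hn
    rw [hL0 q hq, surg_hd hb0 rfl hccn hccl hccz (Θ q) hn]
  set L₁ : Set E := {q | (q ∈ L₀ ∧ b ^ 2 ≤ surg_n (Θ q)) ∨ (q ∈ K ∧ Θ q ∈ Hd cc)} with hL₁
  have hHdc : IsClosed (Hd cc) := by
    unfold Hd
    have := hcc.continuous
    refine (isClosed_eq (by fun_prop) continuous_const).inter (isClosed_eq ?_ ?_) <;> fun_prop
  refine ⟨L₁, K, ?_, hKc, hKU, ?_, ?_, ?_⟩
  · have h1 : L₁ = (L₀ ∩ {q | b ^ 2 ≤ surg_n (Θ q)}) ∪ (K ∩ Θ ⁻¹' Hd cc) := rfl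
    rw [h1]
    exact (hL₀.inter_right (isClosed_le continuous_const (hnc.comp hΘcont))).union
      (hKc.inter_right (hHdc.preimage hΘcont))
  · rw [mem_interior]
    refine ⟨{q | surg_n (Θ q) < b ^ 2}, fun q (hq : surg_n (Θ q) < b ^ 2) =>
      (hq.le : surg_n (Θ q) ≤ b ^ 2),
      isOpen_lt (hnc.comp hΘcont) continuous_const, ?_⟩
    change surg_n (Θ d) < b ^ 2
    rw [hn0]
    positivity
  · intro q hq
    have hq' : b ^ 2 < surg_n (Θ q) := not_le.mp hq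
    constructor
    · rintro (h | h)
      · exact h.1
      · exact absurd h.1 hq
    · intro h
      exact Or.inl ⟨h, hq'.le⟩
  · intro p hp hpL
    have hVo : IsOpen {q | surg_n (Θ q) < 4 * b ^ 2} :=
      isOpen_lt (hnc.comp hΘcont) continuous_const
    have hagree : ∀ q ∈ {q | surg_n (Θ q) < 4 * b ^ 2}, (q ∈ Θ ⁻¹' Hd cc ↔ q ∈ L₁) := by
      intro q hq
      have hqU := (hsmall' q hq).2
      constructor
      · intro h
        by_cases hn : surg_n (Θ q) ≤ b ^ 2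
        · exact Or.inr ⟨hn, h⟩
        · have hn' := (not_le.mp hn).le
          exact Or.inl ⟨(hfar q hqU hn').mpr h, hn'⟩
      · rintro (⟨h1, h2⟩ | ⟨h1, h2⟩)
        · exact (hfar q hqU h2).mp h1
        · exact h2
    have hp4 : surg_n (Θ p) < 4 * b ^ 2 := by
      have : surg_n (Θ p) ≤ b ^ 2 := hp
      nlinarith [sq_pos_of_pos hb0]
    have hpH : Θ p ∈ Hd cc := (hagree p hp4).mpr hpL
    have h1 := hHand cc hcc hcc0 (Θ p) hpH
    have h2 := hPull (Hd cc) Θ univ p isOpen_univ (mem_univ p) hΘc.contDiffOn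
      (fun q _ u v => surg_sympl hψ c m₁ m₂ q u v) h1
    exact surg_local hVo hp4 hagree h2

end GW
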